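import Pool.Agent.H52.W.CG3.Defs
import Pool.Agent.H52.W.CG2.FIN

/-!
# Size of the parameters
-/

set_option autoImplicit false

namespace Pool.Agent.H52.W.CG3

variable [Lam]

open Finset Filter NumberField Pool.Agent.H38R2.CG Pool.Agent.H52.W.CG2
open scoped Classical

lemma th_lt_one (a : ℝ) (ha : 2 < a) : th a < 1 ∧ 0 ≤ th a := by
  unfold th
  have h1 : 0 < cc a := ccpos ha
  have h2 : cc a < 1 / 32 := cclt ha
  constructor <;> linarith

lemma ev_L (a : ℝ) (ha : 2 < a) : ∀ᶠ L : ℝ in atTop,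
    100 ≤ L ∧ ((a + 2) / 2) * Real.log (L + 1) ≤ a * Real.log L - 3 ∧
    2 * Real.log (L + 1) + 2 ≤ (1 - 2 / ((a + 2) / 2)) * L ∧ 16 ≤ L ^ a := by
  set a' := (a + 2) / 2 with ha'
  have h2a : 2 < a' := by rw [ha']; linarith
  have haa : a' < a := by rw [ha']; linarith
  have hc : 0 < 1 - 2 / a' := by
    have : 2 / a' < 1 := by rw [div_lt_one (by linarith)]; exact h2a
    linarith
  have e1 : ∀ᶠ L : ℝ in atTop, 100 ≤ L := eventually_ge_atTop 100
  have e2 : ∀ᶠ L : ℝ in atTop, (a' + 3) / (a - a') ≤ Real.log L :=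
    Real.tendsto_log_atTop.eventually_ge_atTop _
  have e3 : ∀ᶠ L : ℝ in atTop, ‖Real.log L‖ ≤ ((1 - 2 / a') / 8) * ‖L‖ :=
    Real.isLittleO_log_id_atTop.bound (by positivity)
  have e4 : ∀ᶠ L : ℝ in atTop, 8 / (1 - 2 / a') ≤ L := eventually_ge_atTop _
  filter_upwards [e1, e2, e3, e4] with L h1 h2 h3 h4
  have hL0 : 0 < L := by linarith
  have hlog0 : 0 ≤ Real.log L := Real.log_nonneg (by linarith)
  have h5 : Real.log (L + 1) ≤ Real.log L + 1 := by
    have h6 : L + 1 ≤ L * 2 := by linarith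
    have h7 : Real.log (L + 1) ≤ Real.log (L * 2) := Real.log_le_log (by linarith) h6
    rw [Real.log_mul (by positivity) (by norm_num)] at h7
    have := Real.log_two_lt_d9
    linarith
  rw [Real.norm_eq_abs, Real.norm_eq_abs, abs_of_nonneg hlog0, abs_of_pos hL0] at h3
  refine ⟨h1, ?_, ?_, ?_⟩
  · rw [div_le_iff₀ (by linarith)] at h2
    have h6 : a' * Real.log (L + 1) ≤ a' * (Real.log L + 1) :=
      mul_le_mul_of_nonneg_left h5 (by linarith)
    nlinarith
  · rw [div_le_iff₀ hc] at h4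
    nlinarith
  · have h6 : L ^ (2 : ℝ) ≤ L ^ a := Real.rpow_le_rpow_of_exponent_le (by linarith) ha.le
    have h7 : L ^ (2 : ℝ) = L * L := by
      rw [show (2 : ℝ) = ((2 : ℕ) : ℝ) by norm_num, Real.rpow_natCast, sq]
    rw [h7] at h6
    nlinarith

lemma params (a : ℝ) (ha : 2 < a) : ∃ X1 : ℕ, ∀ X : ℕ, X1 ≤ X → ∀ d : ℝ, (X : ℝ) / 4 ≤ d →
    d ≤ 2 * X → 2 * (yA a X : ℝ) ≤ (Real.log d) ^ a ∧
      2 * (kA a X : ℝ) ≤ Real.log d / Real.log (Real.log d) ∧ 2 ≤ yA a X := by
  obtain ⟨X1, h4, hX1⟩ := FIN2h.log_ineq a ha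
  have ht : Tendsto (fun X : ℕ => Real.log (X : ℝ)) atTop atTop :=
    Real.tendsto_log_atTop.comp tendsto_natCast_atTop_atTop
  obtain ⟨X2, hX2⟩ := Filter.eventually_atTop.1 (ht.eventually (ev_L a ha))
  refine ⟨max X1 X2, ?_⟩
  intro X hX d hd hd2
  obtain ⟨hL100, hi, hii, hLa⟩ := hX2 X (le_trans (le_max_right _ _) hX)
  have hXX1 := le_trans (le_max_left _ _) hX
  have hlog := hX1 X hXX1 d hd
  have hX4 : (4 : ℝ) ≤ X := by exact_mod_cast le_trans h4 hXX1
  set L := Real.log (X : ℝ) with hL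
  set a' := (a + 2) / 2 with ha'
  have h2a : 2 < a' := by rw [ha']; linarith
  have hy : (yA a X : ℝ) ≤ L ^ a / 4 := Nat.floor_le (by positivity)
  have hy1 : L ^ a / 4 - 1 < (yA a X : ℝ) := by
    have := Nat.lt_floor_add_one (L ^ a / 4)
    unfold yA
    linarith
  have hy8 : L ^ a / 8 ≤ (yA a X : ℝ) := by linarith
  have hL0 : 0 < L := by linarith
  have hlogy : a * Real.log L - 3 ≤ Real.log (yA a X) := by
    have h5 : Real.log (L ^ a / 8) ≤ Real.log (yA a X) := Real.log_le_log (by positivity) hy8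
    rw [Real.log_div (by positivity) (by norm_num), Real.log_rpow hL0] at h5
    have h8 : Real.log 8 ≤ 3 := by
      rw [show (8 : ℝ) = 2 ^ 3 by norm_num, Real.log_pow]
      have := Real.log_two_lt_d9
      push_cast
      linarith
    linarith
  have hl1 : 1 ≤ Real.log (L + 1) := by
    rw [Real.le_log_iff_exp_le (by linarith)]
    have := Real.exp_one_lt_d9
    linarith
  have hlogy' : a' * Real.log (L + 1) ≤ Real.log (yA a X) := hi.trans hlogy
  have hdlow : L - 2 ≤ Real.log d := by
    have h1 : Real.log ((X : ℝ) / 4) ≤ Real.log d := Real.log_le_log (by positivity) hd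
    rw [Real.log_div (by positivity) (by norm_num)] at h1
    have h4' : Real.log 4 ≤ 2 := by
      rw [show (4 : ℝ) = 2 ^ 2 by norm_num, Real.log_pow]
      have := Real.log_two_lt_d9
      push_cast
      linarith
    linarith
  have hdup : Real.log d ≤ L + 1 := by
    have h1 : Real.log d ≤ Real.log (2 * X) := Real.log_le_log (by linarith) hd2
    rw [Real.log_mul (by norm_num) (by positivity)] at h1
    have := Real.log_two_lt_d9
    linarith
  have hlld : Real.log (Real.log d) ≤ Real.log (L + 1) := Real.log_le_log (by linarith) hdup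
  have hlld0 : 0 < Real.log (Real.log d) := Real.log_pos (by linarith)
  refine ⟨?_, ?_, ?_⟩
  · linarith
  · rw [le_div_iff₀ hlld0]
    have hk : (kA a X : ℝ) ≤ L / (a' * Real.log (L + 1)) + 1 := by
      unfold kA
      push_cast
      have hth := th_lt_one a ha
      have h6 : 0 < a' * Real.log (L + 1) := by positivity
      have h7 : (⌊th a * Real.log X / Real.log (yA a X)⌋₊ : ℝ) ≤
          th a * L / Real.log (yA a X) := by
        apply Nat.floor_le
        apply div_nonneg (mul_nonneg hth.2 hL0.le)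
        linarith
      have h8 : th a * L / Real.log (yA a X) ≤ L / (a' * Real.log (L + 1)) := by
        apply div_le_div₀ hL0.le _ h6 hlogy'
        nlinarith [hth.1]
      linarith
    have hk0 : (0 : ℝ) ≤ kA a X := by positivity
    calc 2 * (kA a X : ℝ) * Real.log (Real.log d) ≤ 2 * (kA a X : ℝ) * Real.log (L + 1) :=
          mul_le_mul_of_nonneg_left hlld (by positivity)
      _ ≤ 2 * (L / (a' * Real.log (L + 1)) + 1) * Real.log (L + 1) := by
          apply mul_le_mul_of_nonneg_right _ (by linarith)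
          linarith
      _ = 2 / a' * L + 2 * Real.log (L + 1) := by
          have : Real.log (L + 1) ≠ 0 := by linarith
          have h9 : a' ≠ 0 := by linarith
          field_simp
      _ ≤ L - 2 := by linarith
      _ ≤ Real.log d := hdlow
  · have : (1 : ℝ) < (yA a X : ℝ) := by linarith
    exact_mod_cast this

end Pool.Agent.H52.W.CG3
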