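import Pool.Agent.H52.W.CG2.AS0
import Pool.Agent.H52.W.CG3.NC

/-!
# Few exceptional discriminants for the class distribution, in the weighted sense
-/

set_option autoImplicit false

namespace Pool.Agent.H52.W.CG3

variable [Lam]

open Finset Filter NumberField Pool.Agent.H38R2.CG Pool.Agent.H52.W.CG2
open scoped Classical

/-- exceptional discriminants: the Cauchy-Schwarz inequality is far from equality -/
def Bd (a t0 : ℝ) (X D : ℕ) : Prop :=
  (1 + t0) * (MD D (SA a X) (fun _ => 1)) ^ 2 ≤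
    2 * √(D : ℝ) * Lone D * SD D (SA a X) (fun _ => 1)

/-- few exceptional discriminants -/
def P3_AS0 : Prop := ∀ a : ℝ, 2 < a → ∀ t0 : ℝ, 0 < t0 → ∀ C0 : ℕ, 1 ≤ C0 → ∀ ε : ℝ, 0 < ε →
  ∃ z0 : ℕ, ∀ z ≥ z0,
  ∃ η1 : ℝ, 0 < η1 ∧ ∀ η : ℝ, 0 < η → η ≤ η1 → ∀ r : ℕ, FundRes z r → ∃ X0 : ℕ, ∀ X ≥ X0,
  ∀ ρ : ℕ → ℝ, SWt z X (PA a X) (cc a) C0 ρ →
    ∑ D ∈ (FD z r X η).filter (fun D => Bd a t0 X D), wt ρ D ≤ ε * WW z X η ρ

open AS0h in
theorem T3_AS0 : P_NF → P2_NB → P2_WT → P2_LM → P2_M1L → P2_MLOW → P2_TM → P3_AS0 := by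
  intro hNF hNB hWT hLM hM1L hMLOW hTM a ha t0 ht00 C0 hC0 ε hε
  set β : ℝ := t0 / (1 + t0) with hβ
  have hβ0 : 0 < β := by positivity
  have hβ1 : β < 1 := by rw [hβ, div_lt_one (by linarith)]; linarith
  have hβe : 1 - β = 1 / (1 + t0) := by rw [hβ]; field_simp; ring
  have hsβ0 : 0 < √β := Real.sqrt_pos.2 hβ0
  have hsβ1 : √β ≤ 1 := Real.sqrt_le_one.2 hβ1.le
  set t : ℝ := min (1 / 10) (√β * ε / 4) with ht
  have ht0 : 0 < t := lt_min (by norm_num) (by positivity)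
  have ht1 : t ≤ 1 / 10 := min_le_left _ _
  have ht4 : 4 * t ≤ √β * ε := by have := min_le_right (1 / 10) (√β * ε / 4); linarith
  have ht20 : 0 < t ^ 2 := by positivity
  refine ⟨⌈(4 + 2 * (C0:ℝ)) / t ^ 2⌉₊ + 2, fun z hz => ?_⟩
  have hz2 : 2 ≤ z := by omega
  have hzr : (4 + 2 * (C0:ℝ)) / t ^ 2 ≤ z :=
    (Nat.le_ceil _).trans (by exact_mod_cast (show ⌈(4 + 2 * (C0:ℝ)) / t ^ 2⌉₊ ≤ z by omega))
  have hz0 : (0:ℝ) < z := by exact_mod_cast (show 0 < z by omega)
  have hz4 : 4 / (z:ℝ) ≤ t ^ 2 := by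
    rw [div_le_iff₀ ht20] at hzr
    rw [div_le_iff₀ hz0]
    have : (0:ℝ) ≤ C0 := Nat.cast_nonneg _
    linarith
  have hzC : 2 * (C0:ℝ) / z ≤ t ^ 2 := by
    rw [div_le_iff₀ ht20] at hzr
    rw [div_le_iff₀ hz0]
    linarith
  refine ⟨t ^ 2, ht20, fun η hη0 hη1 r hr => ?_⟩
  have hη : η ≤ 1 := by nlinarith
  obtain ⟨X1, hX1⟩ := hLM a ha z r hz2 hr η hη0 hη C0 hC0 (t ^ 2) ht20
  obtain ⟨X2, hX2⟩ := hM1L a ha z r hz2 hr η hη0 hη C0 hC0 (t ^ 2) ht20
  obtain ⟨X3, hX3⟩ := hMLOW a ha z r hr η hη0 hη C0 hC0 (t ^ 2) ht20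
  obtain ⟨X4, hX4⟩ := hTM a ha z r hz2 hr η hη0 hη C0 hC0 (t ^ 2) ht20
  obtain ⟨X5, hX5⟩ := hNB a ha 1 one_pos
  have hyA : Tendsto (yA a) atTop atTop := by
    unfold yA
    apply tendsto_nat_floor_atTop.comp
    apply Tendsto.atTop_div_const (by norm_num)
    exact (tendsto_rpow_atTop (by linarith)).comp
      (Real.tendsto_log_atTop.comp tendsto_natCast_atTop_atTop)
  obtain ⟨X6, hX6⟩ := (tendsto_atTop.1 hyA 2).exists_forall_of_atTop
  refine ⟨X1 + X2 + X3 + X4 + X5 + X6 + 3, fun X hX ρ hρ => ?_⟩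
  have hX0 : 3 ≤ X := by omega
  have hXr : (3:ℝ) ≤ X := by exact_mod_cast hX0
  have hXpos : (0:ℝ) < X := by linarith
  have hQ : (0:ℝ) < (Qz z : ℝ) := by
    have : 0 < Qz z := by
      unfold Qz
      apply Nat.mul_pos (by norm_num)
      apply prod_pos
      intro l hl
      exact pow_pos (mem_filter.1 hl).2.pos 2
    exact_mod_cast this
  have hcc : cc a ≤ 1 := by
    have h32 := cclt (a := a) (by assumption)
    linarith
  have hlog : 0 < Real.log X := Real.log_pos (by linarith)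
  have hG : 0 < GG X ρ := lt_of_lt_of_le (by positivity) hρ.low
  set W := WW z X η ρ with hWdef
  have hW : 0 < W := by rw [hWdef]; unfold WW; positivity
  set N := NA a X with hN
  have hN0 : 0 < N := lt_of_lt_of_le (by positivity) (hX5 X (by omega)).2.1
  have hP := PiR_pos z r
  set S := SA a X with hS
  -- members of the family
  have hprime : ∀ s ∈ S, ∀ p ∈ s, p.Prime ∧ p ≠ 2 ∧ (p : ℝ) ≤ (Real.log X) ^ a / 2 := by
    intro s hs p hp
    have hs' := (mem_powersetCard.1 hs).1 hp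
    simp only [PA, PP, mem_filter, mem_Ioc] at hs'
    have hy := hX6 X (by omega)
    refine ⟨hs'.2, by omega, ?_⟩
    have h1 : (p : ℝ) ≤ 2 * (yA a X : ℝ) := by exact_mod_cast hs'.1.2
    have h2 : (yA a X : ℝ) ≤ (Real.log X) ^ a / 4 := Nat.floor_le (by positivity)
    linarith
  have hmem : ∀ D ∈ FD z r X η, IsFund D ∧ 1 ≤ D ∧ (D:ℝ) ≤ (1 + η) * X ∧ D ∈ DD z r X η := by
    intro D hD
    have h1 := (mem_filter.1 hD)
    have h2 := h1.1
    simp only [DD, mem_filter, mem_Ioc] at h2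
    refine ⟨h1.2, by omega, ?_, h1.1⟩
    exact (Nat.le_floor_iff' (by omega)).1 h2.1.2
  have hwD : ∀ D ∈ DD z r X η, 0 ≤ wt ρ D := by
    intro D hD
    simp only [DD, mem_filter, mem_Ioc] at hD
    exact (hWT z X (PA a X) (cc a) C0 ρ (by omega) hcc hρ D (by omega)).1
  have hw : ∀ D ∈ FD z r X η, 0 ≤ wt ρ D := fun D hD => hwD D (hmem D hD).2.2.2
  have hL : ∀ D ∈ FD z r X η, 0 ≤ Lone D := fun D hD => (hNF D (hmem D hD).1).1
  set M : ℕ → ℝ := fun D => MD D S (fun _ => 1) with hMdef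
  set SS : ℕ → ℝ := fun D => SD D S (fun _ => 1) with hSSdef
  have hSS : ∀ D, 0 ≤ SS D := fun D => SD_nonneg D S
  have hin1 : ∀ D ∈ FD z r X η, (M D) ^ 2 ≤ 2 * √(D : ℝ) * Lone D * SS D := by
    intro D hD
    exact (hNF D (hmem D hD).1).2.1 S (fun _ => 1) fun s hs =>
      ⟨zero_le_one, fun p hp => ⟨(hprime s hs p hp).1, (hprime s hs p hp).2.1⟩⟩
  have hin2 : ∀ D ∈ FD z r X η, Bd a t0 X D →
      (M D) ^ 2 ≤ (1 - β) * (2 * √(D : ℝ) * Lone D * SS D) := by
    intro D hD hB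
    unfold Bd at hB
    rw [hβe, one_div, inv_mul_eq_div, le_div_iff₀ (by linarith)]
    linarith
  set B := (FD z r X η).filter (fun D => Bd a t0 X D) with hB
  set T : ℝ := √((1 + η) * X) with hT
  have hsqrtD : ∀ D ∈ FD z r X η, √(D : ℝ) ≤ T := fun D hD =>
    Real.sqrt_le_sqrt (hmem D hD).2.2.1
  set A := ∑ D ∈ FD z r X η, wt ρ D * Lone D with hA
  set b := ∑ D ∈ B, wt ρ D * Lone D with hb
  have hTM' := hX4 X (by omega) ρ hρ
  have hSSsum : ∑ D ∈ FD z r X η, wt ρ D * SS D ≤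
      (1 + t ^ 2) * (PiR z r / (2 * Qz z)) * GG X ρ * η * √(X : ℝ) * N ^ 2 := by
    refine le_trans ?_ hTM'
    exact sum_le_sum_of_subset_of_nonneg (filter_subset _ _) fun D hD _ =>
      mul_nonneg (hwD D hD) (hSS D)
  have hTX : T * √(X : ℝ) = √(1 + η) * X := by
    rw [hT, Real.sqrt_mul (by linarith), mul_assoc, Real.mul_self_sqrt hXpos.le]
  have hsq1 : 1 ≤ √(1 + η) := Real.one_le_sqrt.2 (by linarith)
  have hsq2 : √(1 + η) ≤ 1 + t ^ 2 := by
    rw [Real.sqrt_le_left (by positivity)]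
    nlinarith
  -- Cauchy-Schwarz 1
  have cs1 : (∑ D ∈ FD z r X η, wt ρ D * M D) ^ 2 ≤
      √(1 + η) * (1 + t ^ 2) * W * (PiR z r * (A - (2 * β * b) / 2)) * N ^ 2 := by
    have h1 := cs (FD z r X η) (fun D => wt ρ D * M D)
      (fun D => 2 * T * (wt ρ D * Lone D * (if Bd a t0 X D then 1 - β else 1)))
      (fun D => wt ρ D * SS D)
      (fun D hD => by
        have := hw D hD
        have := hL D hD
        have : (0:ℝ) ≤ (if Bd a t0 X D then 1 - β else 1) := by split_ifs <;> linarith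
        positivity)
      (fun D hD => mul_nonneg (hw D hD) (hSS D))
      (fun D hD => by
        have hw' := hw D hD
        have hL' := hL D hD
        have hS' := hSS D
        have hs' := hsqrtD D hD
        have hkey : (M D) ^ 2 ≤ 2 * T * (Lone D * (if Bd a t0 X D then 1 - β else 1)) * SS D := by
          have h0 : 2 * √(D : ℝ) * Lone D * SS D ≤ 2 * T * Lone D * SS D := by gcongr
          split_ifs with hbad
          · have h1 := hin2 D hD hbad
            have h2 : (1 - β) * (2 * √(D : ℝ) * Lone D * SS D) ≤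
                (1 - β) * (2 * T * Lone D * SS D) :=
              mul_le_mul_of_nonneg_left h0 (by linarith)
            linarith
          · have := hin1 D hD
            linarith
        calc (wt ρ D * M D) ^ 2 = (wt ρ D) ^ 2 * (M D) ^ 2 := by ring
          _ ≤ (wt ρ D) ^ 2 * (2 * T * (Lone D * (if Bd a t0 X D then 1 - β else 1)) * SS D) := by
              gcongr
          _ = _ := by ring)
    have h2 : ∑ D ∈ FD z r X η, 2 * T * (wt ρ D * Lone D * (if Bd a t0 X D then 1 - β else 1)) =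
        2 * T * (A - (2 * β * b) / 2) := by
      rw [← mul_sum]
      congr 1
      have h3 : ∀ D ∈ FD z r X η, wt ρ D * Lone D * (if Bd a t0 X D then 1 - β else 1) =
          wt ρ D * Lone D - (if Bd a t0 X D then β * (wt ρ D * Lone D) else 0) := by
        intro D _
        split_ifs <;> ring
      rw [sum_congr rfl h3, sum_sub_distrib, ← sum_filter, ← mul_sum]
      rw [← hA, ← hB, ← hb]
      ring
    rw [h2] at h1
    have hAb : 0 ≤ A - (2 * β * b) / 2 := by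
      have h3 : b ≤ A := sum_le_sum_of_subset_of_nonneg (filter_subset _ _) fun D hD _ =>
        mul_nonneg (hw D hD) (hL D hD)
      have h4 : 0 ≤ b := sum_nonneg fun D hD =>
        mul_nonneg (hw D (mem_filter.1 hD).1) (hL D (mem_filter.1 hD).1)
      nlinarith
    have h5 := h1.trans (mul_le_mul_of_nonneg_left hSSsum (by positivity))
    refine h5.trans (le_of_eq ?_)
    rw [hWdef]
    unfold WW
    have e : 2 * T * (A - (2 * β * b) / 2) * ((1 + t ^ 2) * (PiR z r / (2 * Qz z)) * GG X ρ * η * √(X : ℝ) *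
        N ^ 2) = (T * √(X : ℝ)) * ((A - (2 * β * b) / 2) * ((1 + t ^ 2) * (PiR z r / Qz z) * GG X ρ * η *
        N ^ 2)) := by
      field_simp
    rw [e, hTX]
    field_simp
  -- Cauchy-Schwarz 2
  set B' := B.filter (fun D => (1 - t ^ 2) * N ≤ M D) with hB'
  have hB'sub : B' ⊆ FD z r X η := (filter_subset _ _).trans (filter_subset _ _)
  have cs2 : (√β * ∑ D ∈ B', wt ρ D * M D) ^ 2 ≤
      √(1 + η) * (1 + t ^ 2) * W * (PiR z r * ((2 * β * b) / 2)) * N ^ 2 := by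
    have h1 := cs B' (fun D => wt ρ D * M D)
      (fun D => 2 * T * (wt ρ D * Lone D))
      (fun D => wt ρ D * SS D)
      (fun D hD => by
        have := hw D (hB'sub hD)
        have := hL D (hB'sub hD)
        positivity)
      (fun D hD => mul_nonneg (hw D (hB'sub hD)) (hSS D))
      (fun D hD => by
        have hw' := hw D (hB'sub hD)
        have hL' := hL D (hB'sub hD)
        have hS' := hSS D
        have hs' := hsqrtD D (hB'sub hD)
        have hbad : Bd a t0 X D := (mem_filter.1 (mem_filter.1 hD).1).2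
        have hkey : (M D) ^ 2 ≤ 2 * T * Lone D * SS D := by
          have h0 : 2 * √(D : ℝ) * Lone D * SS D ≤ 2 * T * Lone D * SS D := by gcongr
          have := hin1 D (hB'sub hD)
          linarith
        calc (wt ρ D * M D) ^ 2 = (wt ρ D) ^ 2 * (M D) ^ 2 := by ring
          _ ≤ (wt ρ D) ^ 2 * (2 * T * Lone D * SS D) := by gcongr
          _ = _ := by ring)
    have h2 : ∑ D ∈ B', 2 * T * (wt ρ D * Lone D) ≤ 2 * T * b := by
      rw [← mul_sum]
      apply mul_le_mul_of_nonneg_left _ (by positivity)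
      exact sum_le_sum_of_subset_of_nonneg (filter_subset _ _) fun D hD _ =>
        mul_nonneg (hw D (mem_filter.1 hD).1) (hL D (mem_filter.1 hD).1)
    have h3 : ∑ D ∈ B', wt ρ D * SS D ≤
        (1 + t ^ 2) * (PiR z r / (2 * Qz z)) * GG X ρ * η * √(X : ℝ) * N ^ 2 := by
      refine le_trans ?_ hSSsum
      exact sum_le_sum_of_subset_of_nonneg hB'sub fun D hD _ => mul_nonneg (hw D hD) (hSS D)
    have hb0 : 0 ≤ b := sum_nonneg fun D hD =>
        mul_nonneg (hw D (mem_filter.1 hD).1) (hL D (mem_filter.1 hD).1)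
    have h5 : (∑ D ∈ B', wt ρ D * M D) ^ 2 ≤ (2 * T * b) *
        ((1 + t ^ 2) * (PiR z r / (2 * Qz z)) * GG X ρ * η * √(X : ℝ) * N ^ 2) := by
      refine h1.trans ?_
      apply mul_le_mul h2 h3
      · exact sum_nonneg fun D hD => mul_nonneg (hw D (hB'sub hD)) (hSS D)
      · positivity
    rw [mul_pow, Real.sq_sqrt hβ0.le]
    refine (mul_le_mul_of_nonneg_left h5 hβ0.le).trans (le_of_eq ?_)
    rw [hWdef]
    unfold WW
    have e : β * (2 * T * b * ((1 + t ^ 2) * (PiR z r / (2 * Qz z)) * GG X ρ * η * √(X : ℝ) *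
        N ^ 2)) = (T * √(X : ℝ)) * (β * (2 * b) * ((1 + t ^ 2) * (PiR z r / (2 * Qz z)) * GG X ρ * η *
        N ^ 2)) := by ring
    rw [e, hTX]
    field_simp
  -- first moment
  have hM1 : (1 - t ^ 2 - 2 * C0 / z) * W * N ≤ ∑ D ∈ FD z r X η, wt ρ D * M D := by
    have h1 : ∀ s ∈ S, (1 - t ^ 2 - 2 * C0 / z) * W ≤
        ∑ D ∈ FD z r X η, wt ρ D * ∏ p ∈ s, (1 + (chi D p : ℝ)) := hX2 X (by omega) ρ hρ
    have h2 : ∑ D ∈ FD z r X η, wt ρ D * M D =
        ∑ s ∈ S, ∑ D ∈ FD z r X η, wt ρ D * ∏ p ∈ s, (1 + (chi D p : ℝ)) := by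
      rw [sum_comm]
      refine sum_congr rfl fun D _ => ?_
      rw [hMdef]
      simp only [MD, one_mul]
      rw [mul_sum]
    rw [h2]
    have h3 := card_nsmul_le_sum S _ _ h1
    have h4 : (S.card : ℝ) = N := by
      rw [hS, hN]
      unfold SA NA CA
      rw [card_powersetCard]
    rw [nsmul_eq_mul, h4] at h3
    linarith
  have hLM' : PiR z r * A ≤ (1 + t ^ 2) * (1 + 4 / z) * W := by
    have h1 := hX1 X (by omega) ρ hρ
    rw [le_div_iff₀ hP] at h1
    linarith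
  -- the bad ones with few ideals
  have hwB : (1 - t ^ 2) * N * (∑ D ∈ B, wt ρ D - t ^ 2 * W) ≤ ∑ D ∈ B', wt ρ D * M D := by
    have h1 := hX3 X (by omega) ρ hρ
    have h2 : ∑ D ∈ B, wt ρ D ≤ ∑ D ∈ B', wt ρ D + t ^ 2 * W := by
      rw [← sum_filter_add_sum_filter_not B (fun D => (1 - t ^ 2) * N ≤ M D)]
      refine add_le_add le_rfl (le_trans ?_ h1)
      apply sum_le_sum_of_subset_of_nonneg
      · intro D hD
        have hD1 := mem_filter.1 hD
        have hD2 := (mem_filter.1 hD1.1).1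
        refine mem_filter.2 ⟨(hmem D hD2).2.2.2, not_le.1 hD1.2⟩
      · intro D hD _
        exact hwD D (mem_filter.1 hD).1
    have h3 : (1 - t ^ 2) * N * ∑ D ∈ B', wt ρ D ≤ ∑ D ∈ B', wt ρ D * M D := by
      rw [mul_sum]
      apply sum_le_sum
      intro D hD
      have h4 := (mem_filter.1 hD).2
      have h5 := hw D (hB'sub hD)
      nlinarith
    refine le_trans ?_ h3
    have h6 : 0 ≤ 1 - t ^ 2 := by nlinarith
    apply mul_le_mul_of_nonneg_left _ (by positivity)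
    linarith
  have hwB' : (1 - t ^ 2) * N * (√β * (∑ D ∈ B, wt ρ D) - t ^ 2 * W) ≤
      √β * ∑ D ∈ B', wt ρ D * M D := by
    have h1 := mul_le_mul_of_nonneg_left hwB hsβ0.le
    have h6 : 0 ≤ 1 - t ^ 2 := by nlinarith
    have h7 : √β * (t ^ 2 * W) ≤ 1 * (t ^ 2 * W) :=
      mul_le_mul_of_nonneg_right hsβ1 (by positivity)
    have h8 : (1 - t ^ 2) * N * (√β * (∑ D ∈ B, wt ρ D) - t ^ 2 * W) ≤
        (1 - t ^ 2) * N * (√β * (∑ D ∈ B, wt ρ D) - √β * (t ^ 2 * W)) :=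
      mul_le_mul_of_nonneg_left (by linarith) (by positivity)
    refine h8.trans (le_trans (le_of_eq ?_) h1)
    ring
  have := final t (2 * C0 / z) (4 / z) (√(1 + η)) W N (PiR z r) _ A (2 * β * b) _ _ ht0 ht1
    (by positivity) hzC hz4 (by positivity) hsq1 hsq2 hW hN0 hM1 hLM' cs1 cs2 hwB'
  have h9 : √β * (∑ D ∈ B, wt ρ D) ≤ √β * (ε * W) := by
    refine this.trans ?_
    have := mul_le_mul_of_nonneg_right ht4 hW.le
    linarith
  exact le_of_mul_le_mul_left h9 hsβ0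

end Pool.Agent.H52.W.CG3
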