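import Pool.Agent.H52.W.CG3.Defs
import Pool.Agent.H52.W.CG3.AS0

/-!
# From the inequality to the distribution
-/

set_option autoImplicit false

namespace Pool.Agent.H52.W.CG3

variable [Lam]

open Finset Filter NumberField Pool.Agent.H38R2.CG Pool.Agent.H52.W.CG2
open scoped Classical

lemma cnt_eq (K : Type) [Field K] [NumberField K] (y k : ℕ) (C : ClassGroup (𝓞 K)) :
    (cnt K y k C : ℝ) = MC K ((PP y).powersetCard k) (fun _ => 1) C := by
  unfold cnt MC
  push_cast
  simp only [one_mul]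

/-- the failure of equidistribution makes the discriminant exceptional -/
lemma bd_of_not_equi (hN0 : P_N0) (hN1 : P_N1) (hN3 : P_N3) (h4 : P_N4) (hKF : P_KF)
    (h5b : P_N5b) (hN6 : P_N6) (a t0 : ℝ) (X D : ℕ) (hy : 2 ≤ yA a X) (hD : IsFund D)
    (K : Type) [Field K] [NumberField K] (h2 : Module.finrank ℚ K = 2)
    (hK : NumberField.discr K = (D : ℤ)) (hne : ¬ Equi K (yA a X) (kA a X) t0) :
    Bd a t0 X D := by
  have hf : ∀ s ∈ SA a X, (0 : ℝ) ≤ (fun _ : Finset ℕ => (1 : ℝ)) s ∧ ∀ p ∈ s, p.Prime ∧ p ≠ 2 := by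
    intro s hs
    refine ⟨zero_le_one, fun p hp => ?_⟩
    have hs' := (mem_powersetCard.1 hs).1 hp
    simp only [PA, PP, mem_filter, mem_Ioc] at hs'
    exact ⟨hs'.2, by omega⟩
  obtain ⟨hA, hB⟩ := nf_classes hN0 hN1 hN3 h4 hKF h5b hN6 K D hD h2 hK (SA a X) (fun _ => 1) hf
  set h : ℝ := (Nat.card (ClassGroup (𝓞 K)) : ℝ) with hh
  have hpos : 0 < h := by rw [hh]; exact_mod_cast Nat.card_pos
  have hcnt : ∀ C : ClassGroup (𝓞 K), (cnt K (yA a X) (kA a X) C : ℝ) =
      MC K (SA a X) (fun _ => 1) C := fun C => cnt_eq K _ _ C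
  set T : ℕ := ∑ C : ClassGroup (𝓞 K), cnt K (yA a X) (kA a X) C with hT
  have hTM : (T : ℝ) = MD D (SA a X) (fun _ => 1) := by
    rw [hT, ← hB]
    push_cast
    exact Finset.sum_congr rfl fun C _ => hcnt C
  unfold Bd
  rw [← hTM]
  by_cases hT0 : T = 0
  · rw [hT0]
    have : 0 ≤ h * ∑ C : ClassGroup (𝓞 K), MC K (SA a X) (fun _ => 1) C ^ 2 := by positivity
    have h3 := this.trans hA
    simpa using h3
  · have hTpos : 0 < T := Nat.pos_of_ne_zero hT0
    have hTr : (0 : ℝ) < T := by exact_mod_cast hTpos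
    unfold Equi at hne
    rw [← hT, ← hh] at hne
    push Not at hne
    have h3 := hne hTpos
    have e1 : ∑ C : ClassGroup (𝓞 K), ((cnt K (yA a X) (kA a X) C : ℝ) / (T : ℝ) - 1 / h) ^ 2 =
        (∑ C : ClassGroup (𝓞 K), (cnt K (yA a X) (kA a X) C : ℝ) ^ 2) / (T : ℝ) ^ 2 - 1 / h := by
      have e2 : ∀ C : ClassGroup (𝓞 K), ((cnt K (yA a X) (kA a X) C : ℝ) / (T : ℝ) - 1 / h) ^ 2 =
          (cnt K (yA a X) (kA a X) C : ℝ) ^ 2 / (T : ℝ) ^ 2 -
            (cnt K (yA a X) (kA a X) C : ℝ) * (2 / ((T : ℝ) * h)) + 1 / h ^ 2 := by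
        intro C
        field_simp
        ring
      rw [Finset.sum_congr rfl fun C _ => e2 C, Finset.sum_add_distrib, Finset.sum_sub_distrib,
        ← Finset.sum_div, ← Finset.sum_mul, Finset.sum_const, nsmul_eq_mul, Finset.card_univ]
      have e3 : ∑ C : ClassGroup (𝓞 K), (cnt K (yA a X) (kA a X) C : ℝ) = T := by
        rw [hT]; push_cast; rfl
      have e4 : (Fintype.card (ClassGroup (𝓞 K)) : ℝ) = h := by
        rw [hh, Nat.card_eq_fintype_card]
      rw [e3, e4]
      field_simp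
      ring
    rw [e1] at h3
    have h5 : (1 + t0) * (T : ℝ) ^ 2 ≤
        h * ∑ C : ClassGroup (𝓞 K), (cnt K (yA a X) (kA a X) C : ℝ) ^ 2 := by
      have h6 : t0 * (1 / h) ^ 2 * h <
          (∑ C : ClassGroup (𝓞 K), (cnt K (yA a X) (kA a X) C : ℝ) ^ 2) / (T : ℝ) ^ 2 - 1 / h := by
        rwa [lt_div_iff₀ hpos] at h3
      have h7 : t0 * (1 / h) ^ 2 * h = t0 / h := by field_simp
      rw [h7] at h6
      have h8 : (1 + t0) / h <
          (∑ C : ClassGroup (𝓞 K), (cnt K (yA a X) (kA a X) C : ℝ) ^ 2) / (T : ℝ) ^ 2 := by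
        have : (1 + t0) / h = 1 / h + t0 / h := by ring
        rw [this]
        linarith
      rw [div_lt_div_iff₀ hpos (by positivity)] at h8
      linarith
    refine h5.trans ?_
    have e5 : ∑ C : ClassGroup (𝓞 K), (cnt K (yA a X) (kA a X) C : ℝ) ^ 2 =
        ∑ C : ClassGroup (𝓞 K), MC K (SA a X) (fun _ => 1) C ^ 2 :=
      Finset.sum_congr rfl fun C _ => by rw [hcnt C]
    rw [e5]
    exact hA

/-- factorisation of an ideal whose norm is a product of distinct primes -/
lemma factor (K : Type) [Field K] [NumberField K] (s : Finset ℕ) (hs : ∀ p ∈ s, p.Prime)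
    (I : nonZeroDivisors (Ideal (𝓞 K))) (hI : Ideal.absNorm (I : Ideal (𝓞 K)) = prodS s) :
    ∃ L : Multiset (nonZeroDivisors (Ideal (𝓞 K))),
      (∀ P ∈ L, (P : Ideal (𝓞 K)).IsPrime ∧ Ideal.absNorm (P : Ideal (𝓞 K)) ∈ s) ∧
      L.card = s.card ∧ (L.map (fun P => ClassGroup.mk0 P)).prod = ClassGroup.mk0 I := by
  have hI0 : (I : Ideal (𝓞 K)) ≠ 0 := nonZeroDivisors.coe_ne_zero I
  set M := UniqueFactorizationMonoid.normalizedFactors (I : Ideal (𝓞 K)) with hM
  have hprod : M.prod = (I : Ideal (𝓞 K)) :=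
    associated_iff_eq.1 (UniqueFactorizationMonoid.prod_normalizedFactors hI0)
  have hprime : ∀ P ∈ M, Prime P := fun P hP =>
    UniqueFactorizationMonoid.prime_of_normalized_factor P hP
  have hdvd : ∀ P ∈ M, P ∣ (I : Ideal (𝓞 K)) := fun P hP =>
    UniqueFactorizationMonoid.dvd_of_mem_normalizedFactors hP
  have hnorm : ∀ P ∈ M, Ideal.absNorm P ∈ s := fun P hP =>
    NFh.norm_mem hs hI (hprime P hP) (hdvd P hP)
  have hcard : M.card = s.card := by
    have h1 : (M.map (fun P => Ideal.absNorm P)).prod = prodS s := by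
      rw [← hI, ← hprod, map_multiset_prod]
    have h2 := congrArg ArithmeticFunction.cardFactors h1
    have hne : (M.map (fun P => Ideal.absNorm P)).prod ≠ 0 := by
      rw [h1]
      exact (NFh.prodS_pos hs).ne'
    rw [ArithmeticFunction.cardFactors_multiset_prod hne, Multiset.map_map] at h2
    have h3 : (M.map (ArithmeticFunction.cardFactors ∘ fun P => Ideal.absNorm P)) =
        M.map (fun _ => 1) := by
      refine Multiset.map_congr rfl fun P hP => ?_
      exact ArithmeticFunction.cardFactors_apply_prime (hs _ (hnorm P hP))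
    rw [h3, Multiset.map_const', Multiset.sum_replicate, smul_eq_mul, mul_one] at h2
    rw [h2]
    have h4 : prodS s = (s.val).prod := by
      unfold prodS
      rw [Finset.prod_val]
      rfl
    have hne2 : (s.val).prod ≠ 0 := by
      rw [← h4]
      exact (NFh.prodS_pos hs).ne'
    rw [h4, ArithmeticFunction.cardFactors_multiset_prod hne2]
    have h5 : (s.val.map fun p => ArithmeticFunction.cardFactors p) = s.val.map (fun _ => 1) := by
      refine Multiset.map_congr rfl fun p hp => ?_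
      exact ArithmeticFunction.cardFactors_apply_prime (hs _ hp)
    rw [h5, Multiset.map_const', Multiset.sum_replicate, smul_eq_mul, mul_one]
    rfl
  have hmem : ∀ P ∈ M, P ∈ nonZeroDivisors (Ideal (𝓞 K)) := fun P hP =>
    mem_nonZeroDivisors_of_ne_zero (hprime P hP).ne_zero
  refine ⟨M.pmap (fun P h => ⟨P, h⟩) hmem, ?_, ?_, ?_⟩
  · intro P hP
    obtain ⟨Q, hQ, rfl⟩ := Multiset.mem_pmap.1 hP
    exact ⟨Ideal.isPrime_of_prime (hprime Q hQ), hnorm Q hQ⟩
  · rw [Multiset.card_pmap, hcard]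
  · have h1 : ((M.pmap (fun P h => (⟨P, h⟩ : nonZeroDivisors (Ideal (𝓞 K)))) hmem)).prod = I := by
      apply Subtype.ext
      rw [← hprod]
      have h2 := map_multiset_prod (nonZeroDivisors (Ideal (𝓞 K))).subtype
        (M.pmap (fun P h => (⟨P, h⟩ : nonZeroDivisors (Ideal (𝓞 K)))) hmem)
      refine h2.trans ?_
      congr 1
      rw [Multiset.map_pmap]
      exact (Multiset.pmap_eq_map _ (fun P => P) M hmem).trans (Multiset.map_id' M)
    rw [← h1, map_multiset_prod]

/-- more than half of the classes occur, so every class is a product of two of them -/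
lemma gen_of_equi (K : Type) [Field K] [NumberField K] (y k : ℕ) (ε : ℝ) (hε : ε ≤ 1 / 4)
    (h : Equi K y k ε) (B n : ℝ) (hB : 2 * (y : ℝ) ≤ B) (hn : 2 * (k : ℝ) ≤ n) :
    GenBy K B n := by
  obtain ⟨hpos, hle⟩ := h
  set H : ℝ := (Nat.card (ClassGroup (𝓞 K)) : ℝ) with hH
  have hH0 : 0 < H := by rw [hH]; exact_mod_cast Nat.card_pos
  set T : ℕ := ∑ C : ClassGroup (𝓞 K), cnt K y k C with hT
  set S : Finset (ClassGroup (𝓞 K)) := Finset.univ.filter (fun C => 0 < cnt K y k C) with hS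
  have hcardH : ((Finset.univ : Finset (ClassGroup (𝓞 K))).card : ℝ) = H := by
    rw [Finset.card_univ, hH, Nat.card_eq_fintype_card]
  -- the number of missing classes
  have hmiss : ((Finset.univ.filter (fun C : ClassGroup (𝓞 K) => ¬ 0 < cnt K y k C)).card : ℝ) *
      (1 / H) ^ 2 ≤ ε * (1 / H) ^ 2 * H := by
    rw [div_le_iff₀ hH0] at hle
    refine le_trans ?_ hle
    rw [← nsmul_eq_mul, ← Finset.sum_const]
    refine le_trans (le_of_eq ?_) (Finset.sum_le_sum_of_subset_of_nonneg (Finset.filter_subset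
      (fun C : ClassGroup (𝓞 K) => ¬ 0 < cnt K y k C) Finset.univ) (fun C _ _ => sq_nonneg _))
    refine Finset.sum_congr rfl fun C hC => ?_
    have h0 : cnt K y k C = 0 := by
      have := (Finset.mem_filter.1 hC).2
      omega
    rw [h0, Nat.cast_zero, zero_div]
    ring
  have hmiss' : ((Finset.univ.filter (fun C : ClassGroup (𝓞 K) => ¬ 0 < cnt K y k C)).card : ℝ) ≤
      ε * H := by
    have h2 : (0 : ℝ) < (1 / H) ^ 2 := by positivity
    refine le_of_mul_le_mul_right ?_ h2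
    linarith
  have hsum := Finset.card_filter_add_card_filter_not (s := (Finset.univ : Finset (ClassGroup (𝓞 K))))
    (fun C => 0 < cnt K y k C)
  have hsum' : (S.card : ℝ) +
      ((Finset.univ.filter (fun C : ClassGroup (𝓞 K) => ¬ 0 < cnt K y k C)).card : ℝ) = H := by
    rw [← hcardH, ← hsum]
    push_cast
    rfl
  have hSbig : H < 2 * (S.card : ℝ) := by nlinarith
  intro C
  -- pigeonhole
  have hex : ∃ C1 ∈ S, C * C1⁻¹ ∈ S := by
    by_contra hcon
    push Not at hcon
    have hdisj : Disjoint S (S.image (fun C1 => C * C1⁻¹)) := by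
      rw [Finset.disjoint_right]
      intro C2 hC2 hC2'
      obtain ⟨C1, hC1, rfl⟩ := Finset.mem_image.1 hC2
      exact hcon C1 hC1 hC2'
    have hinj : (S.image (fun C1 => C * C1⁻¹)).card = S.card := by
      apply Finset.card_image_of_injective
      intro x y hxy
      simpa using hxy
    have h3 : (S ∪ S.image (fun C1 => C * C1⁻¹)).card ≤
        (Finset.univ : Finset (ClassGroup (𝓞 K))).card := Finset.card_le_card (Finset.subset_univ _)
    rw [Finset.card_union_of_disjoint hdisj, hinj] at h3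
    have h4 : (S.card : ℝ) + S.card ≤ H := by
      rw [← hcardH]
      exact_mod_cast h3
    linarith
  obtain ⟨C1, hC1, hC2⟩ := hex
  have hex2 : ∀ C' ∈ S, ∃ L : Multiset (nonZeroDivisors (Ideal (𝓞 K))),
      (∀ P ∈ L, (P : Ideal (𝓞 K)).IsPrime ∧ (Ideal.absNorm (P : Ideal (𝓞 K)) : ℝ) ≤ B) ∧
      L.card = k ∧ (L.map (fun P => ClassGroup.mk0 P)).prod = C' := by
    intro C' hC'
    have h5 := (Finset.mem_filter.1 hC').2
    unfold cnt at h5
    obtain ⟨s, hs, hs'⟩ := Finset.exists_ne_zero_of_sum_ne_zero h5.ne'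
    have hne : Nonempty {I : nonZeroDivisors (Ideal (𝓞 K)) //
        Ideal.absNorm (I : Ideal (𝓞 K)) = prodS s ∧ ClassGroup.mk0 I = C'} := by
      by_contra hemp
      rw [not_nonempty_iff] at hemp
      exact hs' Nat.card_of_isEmpty
    obtain ⟨I, hI1, hI2⟩ := hne
    have hsP := Finset.mem_powersetCard.1 hs
    have hsprime : ∀ p ∈ s, p.Prime := fun p hp => (Finset.mem_filter.1 (hsP.1 hp)).2
    obtain ⟨L, hL1, hL2, hL3⟩ := factor K s hsprime I hI1
    refine ⟨L, ?_, ?_, ?_⟩
    · intro P hP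
      refine ⟨(hL1 P hP).1, ?_⟩
      have h6 := hsP.1 (hL1 P hP).2
      simp only [PP, Finset.mem_filter, Finset.mem_Ioc] at h6
      have h7 : ((Ideal.absNorm (P : Ideal (𝓞 K)) : ℕ) : ℝ) ≤ 2 * (y : ℝ) := by
        exact_mod_cast h6.1.2
      exact h7.trans hB
    · rw [hL2, hsP.2]
    · rw [hL3, hI2]
  obtain ⟨L1, a1, a2, a3⟩ := hex2 C1 hC1
  obtain ⟨L2, b1, b2, b3⟩ := hex2 _ hC2
  refine ⟨L1 + L2, ?_, ?_, ?_⟩
  · intro P hP
    rcases Multiset.mem_add.1 hP with h | h
    · exact a1 P h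
    · exact b1 P h
  · rw [Multiset.card_add, a2, b2]
    push_cast
    linarith
  · rw [Multiset.map_add, Multiset.prod_add, a3, b3]
    exact mul_inv_cancel_comm_assoc C1 C

end Pool.Agent.H52.W.CG3
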